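import Pool.Agent.KK.StmtsC

/-!
# KK row WKT: walks of states are sequences of vertices
-/

set_option autoImplicit false

open scoped BigOperators

namespace Pool.Agent.KK.H62

/-- One step may also be split off at the beginning of a walk. -/
theorem wk_succ' {Ω : Type} [Fintype Ω] (E : Ω → Ω → Prop) (m : ℕ) :
    ∀ s t : Ω, wk E (m + 1) s t = ∑ z : Ω, (by classical exact if E s z then 1 else 0) * wk E m z t := by
  classical
  induction m with
  | zero =>
    intro s t
    simp only [wk]
    rw [Finset.sum_eq_single s, Finset.sum_eq_single t]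
    · simp
    · intro b _ hb; simp [hb]
    · intro h; exact absurd (Finset.mem_univ _) h
    · intro b _ hb; simp [hb.symm]
    · intro h; exact absurd (Finset.mem_univ _) h
  | succ m ih =>
    intro s t
    have h1 : wk E (m + 1 + 1) s t = ∑ z : Ω, wk E (m + 1) s z * (if E z t then 1 else 0) := by
      rw [wk]
    rw [h1]
    have h2 : ∀ z : Ω, wk E (m + 1) z t = ∑ y : Ω, wk E m z y * (if E y t then 1 else 0) := by
      intro z; rw [wk]
    simp only [h2, Finset.mul_sum]
    rw [Finset.sum_comm]
    refine Finset.sum_congr rfl fun z _ => ?_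
    rw [ih, Finset.sum_mul]
    refine Finset.sum_congr rfl fun y _ => ?_
    ring

variable {V : Type} [Fintype V] [DecidableEq V]

/-- Tightness of a walk, read from the start. -/
def Q (H : Finset (Finset V)) {d : ℕ} : (Fin (d + 1) → V) → List V → Prop
  | _, [] => True
  | a, v :: l => insert v (Finset.univ.image a) ∈ H ∧ Q H (Fin.snoc (Fin.tail a) v : Fin (d + 1) → V) l

/-- Final tuple of a walk. -/
def en {d : ℕ} : (Fin (d + 1) → V) → List V → (Fin (d + 1) → V)
  | a, [] => a
  | a, v :: l => en (Fin.snoc (Fin.tail a) v : Fin (d + 1) → V) l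

theorem tight_cons (H : Finset (Finset V)) (k : ℕ) (x : V) (l : List V) :
    Tight H k (x :: l) ↔ ((x :: l).length < k ∨ ((x :: l).take k).toFinset ∈ H) ∧ Tight H k l := by
  constructor
  · intro h
    refine ⟨?_, fun s hs hl => h s (List.infix_cons_iff.2 (Or.inr hs)) hl⟩
    rcases lt_or_ge (x :: l).length k with h1 | h1
    · exact Or.inl h1
    · exact Or.inr (h _ (List.take_prefix k _).isInfix (by rw [List.length_take]; omega))
  · rintro ⟨h1, h2⟩ s hs hl
    rcases List.infix_cons_iff.1 hs with h3 | h3
    · have h4 : s = (x :: l).take k := by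
        rw [← hl]; exact List.prefix_iff_eq_take.1 h3
      rcases h1 with h1 | h1
      · have := h3.length_le; omega
      · rw [h4]; exact h1
    · exact h2 s h3 hl

theorem ofFn_snoc {d : ℕ} (c : Fin d → V) (v : V) :
    List.ofFn (Fin.snoc c v : Fin (d + 1) → V) = List.ofFn c ++ [v] := by
  rw [List.ofFn_succ']
  simp [List.concat_eq_append]

theorem Q_iff (H : Finset (Finset V)) {d : ℕ} (l : List V) : ∀ a : Fin (d + 1) → V,
    Q H a l ↔ Tight H (d + 2) (List.ofFn a ++ l) := by
  induction l with
  | nil =>
    intro a
    simp only [Q, List.append_nil, true_iff]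
    intro s hs hl
    have := hs.length_le
    rw [List.length_ofFn] at this
    omega
  | cons v l ih =>
    intro a
    rw [Q, ih, ofFn_snoc, List.ofFn_succ (f := a), List.cons_append, tight_cons]
    have e1 : List.ofFn (fun i : Fin d => a i.succ) = List.ofFn (Fin.tail a) := rfl
    rw [e1]
    have e2 : List.ofFn (Fin.tail a) ++ [v] ++ l = List.ofFn (Fin.tail a) ++ v :: l := by simp
    rw [e2]
    have e3 : (a 0 :: (List.ofFn (Fin.tail a) ++ v :: l)).take (d + 2) =
        a 0 :: (List.ofFn (Fin.tail a) ++ [v]) := by
      rw [List.take_succ_cons, List.take_append, List.length_ofFn]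
      have : d + 1 - d = 1 := by omega
      rw [this, List.take_of_length_le (by rw [List.length_ofFn]; omega)]
      simp
    rw [e3]
    have e4 : (a 0 :: (List.ofFn (Fin.tail a) ++ [v])).toFinset =
        insert v (Finset.univ.image a) := by
      have : a 0 :: (List.ofFn (Fin.tail a) ++ [v]) = List.ofFn a ++ [v] := by
        rw [List.ofFn_succ (f := a)]; rfl
      rw [this]
      ext x
      simp only [List.mem_toFinset, List.mem_append, List.mem_ofFn, List.mem_singleton,
        Finset.mem_insert, Finset.mem_image, Finset.mem_univ, true_and]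
      tauto
    rw [e4]
    have e5 : ¬ (a 0 :: (List.ofFn (Fin.tail a) ++ v :: l)).length < d + 2 := by
      simp
    simp [e5]

theorem ofFn_en {d : ℕ} (l : List V) : ∀ a : Fin (d + 1) → V,
    List.ofFn (en a l) = (List.ofFn a ++ l).drop l.length := by
  induction l with
  | nil => intro a; simp [en]
  | cons v l ih =>
    intro a
    rw [en, ih, ofFn_snoc, List.ofFn_succ (f := a), List.cons_append, List.length_cons,
      List.drop_succ_cons]
    have e1 : List.ofFn (fun i : Fin d => a i.succ) = List.ofFn (Fin.tail a) := rfl
    rw [e1]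
    simp

theorem wk_eq (H : Finset (Finset V)) {d : ℕ} (m : ℕ) : ∀ (a b : Fin (d + 1) → V)
    (t t' : ZMod (d + 2)), wk (St H) m (a, t) (b, t') =
      {x : Fin m → V | Q H a (List.ofFn x) ∧ en a (List.ofFn x) = b ∧ t' = t + m}.ncard := by
  classical
  induction m with
  | zero =>
    intro a b t t'
    simp only [wk]
    by_cases h : (a, t) = (b, t')
    · rw [if_pos h]
      obtain ⟨h1, h2⟩ := Prod.mk.inj h
      subst h1 h2
      have : {x : Fin 0 → V | Q H a (List.ofFn x) ∧ en a (List.ofFn x) = a ∧
          t = t + ((0 : ℕ) : ZMod (d + 2))} = {Fin.elim0} := by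
        ext x
        simp only [Set.mem_ofPred_eq, Set.mem_singleton_iff]
        constructor
        · intro _; exact Subsingleton.elim _ _
        · intro _; simp [Q, en]
      rw [this, Set.ncard_singleton]
    · rw [if_neg h]
      symm
      rw [Set.ncard_eq_zero]
      ext x
      simp only [Set.mem_ofPred_eq, Set.mem_empty_iff_false, iff_false]
      rintro ⟨-, h2, h3⟩
      apply h
      rw [List.ofFn_zero] at h2
      simp only [en] at h2
      simp only [Nat.cast_zero, add_zero] at h3
      rw [h2, h3]
  | succ m ih =>
    intro a b t t'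
    rw [wk_succ']
    have h1 : ∀ z : Sta V d, (if St H (a, t) z then 1 else 0) * wk (St H) m z (b, t') =
        ∑ v : V, if z = ((Fin.snoc (Fin.tail a) v : Fin (d + 1) → V), t + 1) ∧
          insert v (Finset.univ.image a) ∈ H then
          wk (St H) m ((Fin.snoc (Fin.tail a) v : Fin (d + 1) → V), t + 1) (b, t') else 0 := by
      intro z
      by_cases hz : St H (a, t) z
      · obtain ⟨hz1, hz2, hz3⟩ := hz
        rw [Finset.sum_eq_single (z.1 (Fin.last d))]
        · have hz4 : z = ((Fin.snoc (Fin.tail a) (z.1 (Fin.last d)) : Fin (d + 1) → V), t + 1) := by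
            apply Prod.ext
            · change z.1 = Fin.snoc (Fin.tail a) (z.1 (Fin.last d))
              have : Fin.init z.1 = Fin.tail a := hz2
              rw [← this, Fin.snoc_init_self]
            · exact hz1
          rw [if_pos ⟨hz1, hz2, hz3⟩, if_pos ⟨hz4, hz3⟩, ← hz4, one_mul]
        · intro v _ hv
          rw [if_neg]
          rintro ⟨h, -⟩
          apply hv
          rw [h]
          simp
        · intro h; exact absurd (Finset.mem_univ _) h
      · rw [if_neg hz, zero_mul]
        symm
        apply Finset.sum_eq_zero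
        intro v _
        rw [if_neg]
        rintro ⟨h, h'⟩
        apply hz
        rw [h]
        refine ⟨rfl, ?_, ?_⟩
        · simp
        · simpa using h'
    rw [Finset.sum_congr rfl fun z _ => h1 z, Finset.sum_comm]
    have h2 : ∀ v : V, (∑ z : Sta V d, if z = ((Fin.snoc (Fin.tail a) v : Fin (d + 1) → V), t + 1) ∧
          insert v (Finset.univ.image a) ∈ H then
          wk (St H) m ((Fin.snoc (Fin.tail a) v : Fin (d + 1) → V), t + 1) (b, t') else 0) =
        {x : Fin m → V | Q H a (List.ofFn (Fin.cons v x : Fin (m + 1) → V)) ∧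
          en a (List.ofFn (Fin.cons v x : Fin (m + 1) → V)) = b ∧
            t' = t + ((m + 1 : ℕ) : ZMod (d + 2))}.ncard := by
      intro v
      rw [Finset.sum_eq_single ((Fin.snoc (Fin.tail a) v : Fin (d + 1) → V), t + 1)]
      · by_cases hv : insert v (Finset.univ.image a) ∈ H
        · rw [if_pos ⟨rfl, hv⟩, ih]
          congr 1
          ext x
          simp only [Set.mem_ofPred_eq, List.ofFn_succ, Fin.cons_zero, Fin.cons_succ, Q, en, hv,
            true_and]
          have : t + 1 + (m : ZMod (d + 2)) = t + ((m + 1 : ℕ) : ZMod (d + 2)) := by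
            push_cast; ring
          rw [this]
        · rw [if_neg (fun h => hv h.2)]
          symm
          rw [Set.ncard_eq_zero]
          ext x
          simp only [Set.mem_ofPred_eq, List.ofFn_succ, Fin.cons_zero, Fin.cons_succ, Q, en, hv,
            false_and, Set.mem_empty_iff_false]
      · intro z _ hz
        rw [if_neg (fun h => hz h.1)]
      · intro h; exact absurd (Finset.mem_univ _) h
    rw [Finset.sum_congr rfl fun v _ => h2 v]
    -- now the fibres over the first entry
    have h3 : ∀ P : (Fin (m + 1) → V) → Prop,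
        ∑ v : V, {x : Fin m → V | P (Fin.cons v x)}.ncard = {y : Fin (m + 1) → V | P y}.ncard := by
      intro P
      have e1 : ∀ v : V, {x : Fin m → V | P (Fin.cons v x)}.ncard =
          Fintype.card {x : Fin m → V // P (Fin.cons v x)} := by
        intro v
        rw [← Nat.card_coe_set_eq, Nat.card_eq_fintype_card]
        rfl
      have e2 : {y : Fin (m + 1) → V | P y}.ncard = Fintype.card {y : Fin (m + 1) → V // P y} := by
        rw [← Nat.card_coe_set_eq, Nat.card_eq_fintype_card]
        rfl
      rw [Finset.sum_congr rfl fun v _ => e1 v, e2, ← Fintype.card_sigma]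
      refine Fintype.card_congr ⟨fun p => ⟨Fin.cons p.1 p.2.1, p.2.2⟩,
        fun y => ⟨y.1 0, ⟨Fin.tail y.1, by rw [Fin.cons_self_tail]; exact y.2⟩⟩, ?_, ?_⟩
      · rintro ⟨v, x, hx⟩
        rfl
      · rintro ⟨y, hy⟩
        exact Subtype.ext (Fin.cons_self_tail y)
    exact h3 fun y => Q H a (List.ofFn y) ∧ en a (List.ofFn y) = b ∧
      t' = t + ((m + 1 : ℕ) : ZMod (d + 2))

/-- **WKT**. -/
theorem wkt : WktStmt := by
  classical
  intro d m V _ _ H _ hm a b t t'
  refine ⟨fun ht => ?_, fun ht => ?_⟩
  · rw [wk_eq]
    obtain ⟨n, rfl⟩ : ∃ n, m = n + (d + 1) := ⟨m - (d + 1), by omega⟩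
    have e0 : n + (d + 1) - (d + 1) = n := by omega
    rw [e0]
    symm
    have key : ∀ w : Fin n → V, List.ofFn (Fin.append w b) = List.ofFn w ++ List.ofFn b := by
      intro w; rw [List.ofFn_fin_append]
    refine Set.ncard_congr (fun w _ => Fin.append w b) ?_ ?_ ?_
    · intro w hw
      refine ⟨?_, ?_, ht⟩
      · rw [Q_iff, key, ← List.append_assoc]
        exact hw
      · apply List.ofFn_injective
        rw [ofFn_en, key, List.length_append, List.length_ofFn, List.length_ofFn,
          ← List.append_assoc, List.drop_append, List.length_append, List.length_ofFn,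
          List.length_ofFn]
        have : n + (d + 1) - (d + 1 + n) = 0 := by omega
        rw [this, List.drop_zero, List.drop_of_length_le (by simp; omega)]
        rfl
    · intro w w' _ _ h
      funext i
      have := congrFun h (Fin.castAdd (d + 1) i)
      simpa using this
    · intro y hy
      obtain ⟨hy1, hy2, -⟩ := hy
      refine ⟨fun i => y (Fin.castAdd (d + 1) i), ?_, ?_⟩
      all_goals
        have hb : b = fun i => y (Fin.natAdd n i) := by
          have h := ofFn_en (List.ofFn y) a
          rw [hy2] at h
          have h' : y = Fin.append (fun i => y (Fin.castAdd (d + 1) i))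
              (fun i => y (Fin.natAdd n i)) := by
            rw [Fin.append_castAdd_natAdd]
          rw [h', List.ofFn_fin_append, List.length_append, List.length_ofFn, List.length_ofFn,
            ← List.append_assoc, List.drop_append, List.length_append, List.length_ofFn,
            List.length_ofFn] at h
          have h4 : n + (d + 1) - (d + 1 + n) = 0 := by omega
          rw [h4, List.drop_zero, List.drop_of_length_le (by simp; omega)] at h
          exact List.ofFn_injective (by simpa using h)
      · have h' : y = Fin.append (fun i => y (Fin.castAdd (d + 1) i)) b := by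
          rw [hb, Fin.append_castAdd_natAdd]
        change Tight H (d + 2) _
        rw [Q_iff, h', List.ofFn_fin_append, ← List.append_assoc] at hy1
        exact hy1
      · rw [hb, Fin.append_castAdd_natAdd]
  · rw [wk_eq, Set.ncard_eq_zero]
    ext x
    simp only [Set.mem_ofPred_eq, Set.mem_empty_iff_false, iff_false]
    rintro ⟨-, -, h⟩
    exact ht h

end Pool.Agent.KK.H62
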