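import Pool.Agent.KK.StmtsE

/-!
# KK row E_MAR (statement E11): a normal set is completed to a non-normal set by few tuples
-/

set_option autoImplicit false

open scoped BigOperators

namespace Pool.Agent.KK.E.H62

variable {V : Type} [Fintype V] [DecidableEq V]

/-- the letters of `Fin a ⊕ Fin b` -/
def col (a b : ℕ) : Fin a ⊕ Fin b → Bool := Sum.elim (fun _ => true) (fun _ => false)

theorem lets_eq (X : Finset V) (a b : ℕ) (x : Fin a ⊕ Fin b) : lets X a b x = sd X (col a b x) := by
  rcases x with x | x <;> simp [lets, col, sd]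

theorem card_col (a b : ℕ) (c : Bool) :
    Fintype.card {x : Fin a ⊕ Fin b // col a b x = c} = if c = true then a else b := by
  classical
  rw [Fintype.card_congr Equiv.subtypeSum, Fintype.card_sum]
  cases c <;> simp [col]

theorem cnt {ι : Type} [Fintype ι] (X M : Finset V) (l : ι → Bool) (z : ι → V)
    (hz : ∀ i, z i ∈ sd X (l i))
    (hc : (M ∪ Finset.univ.image z).card = M.card + Fintype.card ι) :
    ((M ∪ Finset.univ.image z) ∩ X).card =
      (M ∩ X).card + (Finset.univ.filter fun i => l i = true).card ∧
    ((M ∪ Finset.univ.image z) \ X).card =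
      (M \ X).card + (Finset.univ.filter fun i => l i = false).card := by
  classical
  have h1 := Finset.card_union_add_card_inter M (Finset.univ.image z)
  have h2 : (Finset.univ.image z).card ≤ Fintype.card ι := Finset.card_image_le
  have h3 : (Finset.univ.image z).card = Fintype.card ι := by omega
  have h4 : (M ∩ Finset.univ.image z).card = 0 := by omega
  have hdis : Disjoint M (Finset.univ.image z) :=
    Finset.disjoint_iff_inter_eq_empty.2 (Finset.card_eq_zero.1 h4)
  have hinj : Function.Injective z := by
    have := Finset.card_image_iff.1 (by rw [h3]; rfl : (Finset.univ.image z).card =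
      (Finset.univ : Finset ι).card)
    intro i j hij
    exact this (Finset.mem_coe.2 (Finset.mem_univ i)) (Finset.mem_coe.2 (Finset.mem_univ j)) hij
  have hX : ∀ i, z i ∈ X ↔ l i = true := by
    intro i
    have h := hz i
    unfold sd at h
    by_cases hl : l i = true
    · rw [if_pos hl] at h
      exact ⟨fun _ => hl, fun _ => h⟩
    · rw [if_neg hl] at h
      rw [Finset.mem_compl] at h
      exact ⟨fun h' => absurd h' h, fun h' => absurd h' hl⟩
  constructor
  · have e1 : (M ∪ Finset.univ.image z) ∩ X = (M ∩ X) ∪ (Finset.univ.image z ∩ X) :=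
      Finset.union_inter_distrib_right _ _ _
    have e2 : Finset.univ.image z ∩ X = (Finset.univ.filter fun i => l i = true).image z := by
      ext v
      simp only [Finset.mem_inter, Finset.mem_image, Finset.mem_univ, true_and,
        Finset.mem_filter]
      constructor
      · rintro ⟨⟨i, rfl⟩, h⟩
        exact ⟨i, (hX i).1 h, rfl⟩
      · rintro ⟨i, h, rfl⟩
        exact ⟨⟨i, rfl⟩, (hX i).2 h⟩
    rw [e1, Finset.card_union_of_disjoint, e2, Finset.card_image_of_injective _ hinj]
    exact Finset.disjoint_of_subset_left Finset.inter_subset_left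
      (Finset.disjoint_of_subset_right Finset.inter_subset_left hdis)
  · have e1 : (M ∪ Finset.univ.image z) \ X = (M \ X) ∪ (Finset.univ.image z \ X) :=
      Finset.union_sdiff_distrib _ _ _
    have e2 : Finset.univ.image z \ X = (Finset.univ.filter fun i => l i = false).image z := by
      ext v
      simp only [Finset.mem_sdiff, Finset.mem_image, Finset.mem_univ, true_and,
        Finset.mem_filter]
      constructor
      · rintro ⟨⟨i, rfl⟩, h⟩
        refine ⟨i, ?_, rfl⟩
        rw [hX i] at h
        simpa using h
      · rintro ⟨i, h, rfl⟩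
        refine ⟨⟨i, rfl⟩, ?_⟩
        rw [hX i, h]
        simp
    rw [e1, Finset.card_union_of_disjoint, e2, Finset.card_image_of_injective _ hinj]
    exact Finset.disjoint_of_subset_left Finset.sdiff_subset
      (Finset.disjoint_of_subset_right Finset.sdiff_subset hdis)

/-- **E_MAR**. -/
theorem e_mar (h01 : StmtE01) (h02 : StmtE02) (h03 : StmtE03) : StmtE11 := by
  classical
  intro V _ _ ι _ H X M p q η l hX hY hη hτ hM
  set c : ι → Finset V := fun i => sd X (l i) with hcdef
  have hsd : ∀ b, (sd X b).Nonempty := by
    intro b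
    cases b
    · simpa [sd] using hY
    · simpa [sd] using hX
  have hcn : ∀ i, (c i).Nonempty := fun i => hsd _
  obtain ⟨d0, dmono, -, -, dex, -⟩ := h01 V ι c hcn
  set ev : (ι → V) → Prop := fun z => (M ∪ Finset.univ.image z).card =
        M.card + Fintype.card ι ∧ Non H X p q η (M ∪ Finset.univ.image z) with hev
  have hR : 0 ≤ η M.card / η (M.card + Fintype.card ι) := div_nonneg hη hτ.le
  by_cases h0 : 0 < dens c ev
  swap
  · exact (not_lt.1 h0).trans hR
  obtain ⟨z₀, hz₀, hzc, hzN⟩ := dex ev h0
  set s := (Finset.univ.filter fun i => l i = true).card with hs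
  set t := (Finset.univ.filter fun i => l i = false).card with ht
  obtain ⟨c1, c2⟩ := cnt X M l z₀ hz₀ hzc
  obtain ⟨n1, n2, -⟩ := hzN
  rw [c1] at n1
  rw [c2] at n2
  set a := p + 1 - (M ∩ X).card with ha
  set b := q + 1 - (M \ X).card with hb
  have hsa : s ≤ a := by omega
  have htb : t ≤ b := by omega
  have hD : D H X M a b ≤ η M.card := by
    by_contra hlt
    exact hM ⟨by omega, by omega, not_le.1 hlt⟩
  -- the bijection of the index types
  let col1 : ι ⊕ (Fin (a - s) ⊕ Fin (b - t)) → Bool := Sum.elim l (col (a - s) (b - t))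
  have hcard : ∀ x : Bool, Fintype.card {y // col1 y = x} = Fintype.card {y // col a b y = x} := by
    intro x
    have e1 : Fintype.card {y // col1 y = x} = Fintype.card {i // l i = x} +
        Fintype.card {y // col (a - s) (b - t) y = x} := by
      rw [Fintype.card_congr (Equiv.subtypeSum (p := fun y => col1 y = x)), Fintype.card_sum]
      rfl
    rw [e1, card_col, card_col, Fintype.card_subtype]
    cases x
    · rw [← ht]
      simp only [Bool.false_eq_true, if_false]
      omega
    · rw [← hs]
      simp only [if_true]
      omega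
  let e : (ι ⊕ (Fin (a - s) ⊕ Fin (b - t))) ≃ (Fin a ⊕ Fin b) :=
    Equiv.ofFiberEquiv (f := col1) (g := col a b) fun x => Fintype.equivOfCardEq (hcard x)
  have he : ∀ y, col a b (e y) = col1 y := fun y => Equiv.ofFiberEquiv_map _ y
  have hbox : (lets X a b) ∘ e = Sum.elim c (lets X (a - s) (b - t)) := by
    funext y
    rw [Function.comp, lets_eq, he]
    rcases y with i | y
    · rfl
    · change sd X (col (a - s) (b - t) y) = lets X (a - s) (b - t) y
      rw [lets_eq]
  have hln : ∀ a b : ℕ, ∀ i, (lets X a b i).Nonempty := by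
    intro a b i
    rw [lets_eq]
    exact hsd _
  let P : (ι ⊕ (Fin (a - s) ⊕ Fin (b - t)) → V) → Prop := fun f => M ∪ Finset.univ.image f ∈ H
  have hpull := h02 V (Fin a ⊕ Fin b) (ι ⊕ (Fin (a - s) ⊕ Fin (b - t))) (lets X a b) e
    (hln a b) e.injective P
  rw [hbox] at hpull
  have hDe : dens (Sum.elim c (lets X (a - s) (b - t))) P = D H X M a b := by
    rw [← hpull]
    unfold D
    congr 1
    funext f
    change (M ∪ Finset.univ.image (f ∘ e) ∈ H) = (M ∪ Finset.univ.image f ∈ H)
    have : Finset.univ.image (f ∘ e) = Finset.univ.image f := by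
      rw [← Finset.image_image, Finset.image_univ_equiv]
    rw [this]
  obtain ⟨-, mk, -⟩ := h03 V ι (Fin (a - s) ⊕ Fin (b - t)) c (lets X (a - s) (b - t)) hcn
    (hln _ _)
  have hmk := mk P (η (M.card + Fintype.card ι)) hτ
  rw [hDe] at hmk
  have hle : dens c ev ≤ dens c (fun f => η (M.card + Fintype.card ι) <
      dens (lets X (a - s) (b - t)) (fun g => P (Sum.elim f g))) := by
    apply dmono
    rintro z hz ⟨hzc', hzN'⟩
    obtain ⟨c1', c2'⟩ := cnt X M l z hz hzc'
    obtain ⟨m1, m2, m3⟩ := hzN'
    rw [hzc', c1', c2'] at m3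
    have e1 : p + 1 - ((M ∩ X).card + (Finset.univ.filter fun i => l i = true).card) = a - s := by
      omega
    have e2 : q + 1 - ((M \ X).card + (Finset.univ.filter fun i => l i = false).card) = b - t := by
      omega
    rw [e1, e2] at m3
    have e3 : D H X (M ∪ Finset.univ.image z) (a - s) (b - t) =
        dens (lets X (a - s) (b - t)) (fun g => P (Sum.elim z g)) := by
      unfold D
      congr 1
      funext g
      change ((M ∪ Finset.univ.image z) ∪ Finset.univ.image g ∈ H) =
        (M ∪ Finset.univ.image (Sum.elim z g) ∈ H)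
      have : Finset.univ.image (Sum.elim z g) = Finset.univ.image z ∪ Finset.univ.image g := by
        ext v
        simp only [Finset.mem_image, Finset.mem_univ, true_and, Finset.mem_union, Sum.exists,
          Sum.elim_inl, Sum.elim_inr]
      rw [this, Finset.union_assoc]
    rw [← e3]
    exact m3
  rw [le_div_iff₀ hτ, mul_comm]
  calc η (M.card + Fintype.card ι) * dens c ev
      ≤ η (M.card + Fintype.card ι) * dens c (fun f => η (M.card + Fintype.card ι) <
          dens (lets X (a - s) (b - t)) (fun g => P (Sum.elim f g))) :=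
        mul_le_mul_of_nonneg_left hle hτ.le
    _ ≤ D H X M a b := hmk
    _ ≤ η M.card := hD

end Pool.Agent.KK.E.H62
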