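import Pool.Agent.Helper60_KKB.PUP

/-!
# Squad KKB, row RST: one right move in absolute time
-/

set_option autoImplicit false

namespace Pool.Agent.KK.H62W

open Pool.Agent.KK.H60W

/-- **RST**. -/
theorem rst (hPER : PerStmt) (hTRA : TraStmt) : RstStmt := by
  intro V _ _ H X k p ε K W W' c hk hW hW' hc hp hR hb1 hb2 hWW
  obtain ⟨-, hb2'⟩ := getD_of_true hb2
  have hcm : c % k = c := Nat.mod_eq_of_lt hc
  -- the class before `c`
  set s := (c + k - 1) % k with hs
  have hsc : s ≠ c := by
    intro h
    have h3 : (c + (k - 1)) % k = (c + 0) % k := by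
      rw [Nat.add_zero, hcm, show c + (k - 1) = c + k - 1 by omega, ← hs]
      exact h
    have h4 : (k - 1) % k = 0 % k := Nat.ModEq.add_left_cancel' c h3
    rw [Nat.mod_eq_of_lt (by omega), Nat.zero_mod] at h4
    omega
  have hne : ∀ i, 1 ≤ i → i < k - 1 → (c + i) % k ≠ c ∧ (c + i) % k ≠ s := by
    intro i hi1 hik
    constructor
    · intro h
      have h3 : (c + i) % k = (c + 0) % k := by rw [h, Nat.add_zero, hcm]
      have h4 : i % k = 0 % k := Nat.ModEq.add_left_cancel' c h3
      rw [Nat.mod_eq_of_lt (by omega), Nat.zero_mod] at h4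
      omega
    · intro h
      have h3 : (c + i) % k = (c + (k - 1)) % k := by
        rw [h, hs, show c + (k - 1) = c + k - 1 by omega]
      have h4 : i % k = (k - 1) % k := Nat.ModEq.add_left_cancel' c h3
      rw [Nat.mod_eq_of_lt (by omega), Nat.mod_eq_of_lt (by omega)] at h4
      omega
  have hsame : ∀ i, 1 ≤ i → i < k - 1 →
      W'.getD ((c + i) % k) false = W.getD ((c + i) % k) false := by
    intro i hi1 hik
    obtain ⟨h3, h4⟩ := hne i hi1 hik
    rw [hWW _ (Nat.mod_lt _ (by omega)), if_neg h3, if_neg h4]
  have e1 : ∀ j, j ≤ k - 2 → per W' (c + 1) j = per W (c + 1) j := by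
    intro j hj
    apply per_congr
    intro i hi
    rw [hW, hW', show c + 1 + i = c + (1 + i) by omega]
    exact hsame (1 + i) (by omega) (by omega)
  have hWc : W'.getD c false = true := by rw [hWW c hc, if_pos rfl]
  have hWs : W'.getD s false = false := by
    rw [hWW s (Nat.mod_lt _ (by omega)), if_neg hsc, if_pos rfl]
  set m := per W (c + 1) (k - 2) with hm
  have hml : m.length = k - 2 := per_length ..
  have q1 : per W (c + k - 1) 1 = [true] := by
    rw [per_one, hW, ← hs, hb1]
  have f1 : per W (c + 1) (k - 1) = m ++ [true] := by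
    have h1 : per W (c + 1) (k - 1) = per W (c + 1) ((k - 2) + 1) := by
      rw [show k - 2 + 1 = k - 1 by omega]
    rw [h1, per_add, show c + 1 + (k - 2) = c + k - 1 by omega, q1]
  have f2 : per W' c (k - 1) = true :: m := by
    have h1 : per W' c (k - 1) = per W' c ((k - 2) + 1) := by
      rw [show k - 2 + 1 = k - 1 by omega]
    rw [h1, per_succ, hW', hcm, hWc, e1 _ le_rfl]
  have hwm : wt W = wt m + 1 := by
    have h1 : per W (c + 1) k = m ++ [true] ++ [false] := by
      have h2 : per W (c + 1) k = per W (c + 1) ((k - 1) + 1) := by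
        rw [show k - 1 + 1 = k by omega]
      rw [h2, per_add, f1, per_one, hW, show c + 1 + (k - 1) = c + k by omega,
        Nat.add_mod_right, hcm, hb2']
    have h3 := wt_full W (c + 1)
    rw [hW, h1, wt_append, wt_append, wt_true, wt_false] at h3
    omega
  have hwW' : wt W' % 2 = p := by
    have h1 : per W' c k = true :: m ++ [false] := by
      have h2 : per W' c k = per W' c ((k - 1) + 1) := by
        rw [show k - 1 + 1 = k by omega]
      rw [h2, per_add, f2, per_one, hW', show c + (k - 1) = c + k - 1 by omega, ← hs, hWs]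
    have h3 := wt_full W' c
    rw [hW', h1, wt_append, wt_cons, wt_true, wt_false] at h3
    rw [← hp]
    congr 1
    omega
  -- the plan
  have P1 := hPER V H X k p ε K W 0 (c + 1) (by omega) hW hp
  rw [Nat.zero_add, Nat.zero_add] at P1
  have hS := hR m hml (by omega)
  rw [← f1, ← f2] at hS
  have hlc : (false :: m ++ [false]).length = k := by
    simp only [List.length_append, List.length_cons, List.length_nil, hml]
    omega
  have P2 := Pl.gadget _ _ _ _ _ (false :: m ++ [false]) (per W' c (k - 1)) P1
    (by rw [hlc]; omega) (by rw [hlc]; omega) (per_length ..) hS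
  have P3 := hPER V H X k p ε K W' c (k - c) (by omega) hW' hwW'
  have e2 : per W' (c + (k - c)) (k - 1) = per W' 0 (k - 1) := by
    have := per_period W' 0 (k - 1)
    rw [hW', Nat.zero_add] at this
    rw [show c + (k - c) = k by omega]
    exact this
  rw [e2] at P3
  have P := hTRA V H X k p ε K _ _ _ _ _ _ _ _ _ P2 P3
  have hN : c + 1 + (false :: m ++ [false]).length + (k - 1) + (k - c) = 3 * k := by
    rw [hlc]; omega
  rw [hN] at P
  -- the count
  have a3 : wt (per W (k - 1) (c + 1)) + wt (per W c (k - 1 - c)) = wt W := by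
    have g1 : per W (k - 1) ((c + 1) + (k - 1 - c)) = per W (k - 1) k := by
      rw [show (c + 1) + (k - 1 - c) = k by omega]
    rw [per_add] at g1
    have g2 : per W (k - 1 + (c + 1)) (k - 1 - c) = per W c (k - 1 - c) := by
      have := per_period W c (k - 1 - c)
      rw [hW] at this
      rw [show k - 1 + (c + 1) = c + k by omega]
      exact this
    have g3 : wt (per W (k - 1) k) = wt W := by
      have := wt_full W (k - 1)
      rw [hW] at this
      exact this
    rw [g2] at g1
    have g4 := congrArg wt g1
    rw [wt_append, g3] at g4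
    exact g4
  have a4 : wt (per W' (c + k - 1) (k - c)) = wt (per W' c (k - 1 - c)) := by
    have h1 : per W' (c + k - 1) (k - c) = per W' (c + k - 1) (1 + (k - 1 - c)) := by
      rw [show 1 + (k - 1 - c) = k - c by omega]
    have h2 : per W' (c + k - 1 + 1) (k - 1 - c) = per W' c (k - 1 - c) := by
      have := per_period W' c (k - 1 - c)
      rw [hW'] at this
      rw [show c + k - 1 + 1 = c + k by omega]
      exact this
    rw [h1, per_add, per_one, hW', ← hs, hWs, h2, wt_append, wt_false, Nat.zero_add]
  have a5 : wt (per W' c (k - 1 - c)) =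
      wt (per W c (k - 1 - c)) + (if c + 1 < k then 1 else 0) := by
    by_cases h : c + 1 < k
    · rw [if_pos h]
      have h1 : k - 1 - c = (k - 2 - c) + 1 := by omega
      rw [h1, per_succ, per_succ, hW, hW', hcm, hWc, hb2', e1 _ (by omega), wt_cons true,
        wt_cons false, wt_true, wt_false]
      omega
    · rw [if_neg h]
      have h1 : k - 1 - c = 0 := by omega
      rw [h1]
      simp [per]
  have hwc : wt (false :: m ++ [false]) = wt m := by
    rw [wt_append, wt_cons, wt_false]
    omega
  have hw2 : wt (per W' c (k - 1)) = wt m + 1 := by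
    rw [f2, wt_cons, wt_true]; omega
  have hfin : wt (per W (k - 1) (c + 1)) + wt (false :: m ++ [false]) + wt (per W' c (k - 1)) +
      wt (per W' (c + k - 1) (k - c)) = 3 * wt W - if c + 1 = k then 1 else 0 := by
    rw [hwc, hw2, a4, a5]
    by_cases h : c + 1 < k
    · rw [if_pos h, if_neg (by omega)]; omega
    · rw [if_neg h, if_pos (by omega)]; omega
  rw [← hfin]
  exact P

end Pool.Agent.KK.H62W
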